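import Pool.Agent.X27.Chr.AM

/-!
# Conjugacy class numbers of a group and its Sylow subgroups up to subpolynomial factors

Let `k(G)` be the number of the conjugacy classes of the finite group `G`, and `G_p` a Sylow `p`-subgroup of `G`. Let `P`
be a class of finite groups closed under direct squares. We show that `k(G) ≤ ∏ k(G_p)` holds on `P` if and only if for
each `ε > 0` there is `C` such that `k(G) ≤ C |G|^ε ∏ k(G_p)` on `P`.
-/

set_option autoImplicit false

namespace Pool.Agent.Results.MP_6bd831_al.SubpolynomialError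

open Pool.Agent.X27.Chr

/-- The number of the conjugacy classes of `G`. -/
noncomputable def kc (G : Type) [Group G] : ℕ := Nat.card (ConjClasses G)

/-- `k(G_p)` for a Sylow `p`-subgroup `G_p` of `G`. -/
noncomputable def bS (p : ℕ) (G : Type) [Group G] : ℕ :=
  kc (Classical.choice (Sylow.nonempty (p := p) (G := G))).toSubgroup

/-- `∏ k(G_p)` over the prime divisors `p` of `|G|`. -/
noncomputable def prodS (G : Type) [Group G] : ℕ :=
  ∏ p ∈ (Nat.card G).primeFactors, bS p G

theorem kc_prod (G : Type) [Group G] [Finite G] : kc (G × G) = kc G ^ 2 := by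
  have h1 := commProb_prod (M := G) G
  rw [commProb_def', commProb_def', Nat.card_prod, div_mul_div_comm] at h1
  have h2 : (Nat.card G : ℚ) ≠ 0 := by exact_mod_cast Nat.card_pos.ne'
  push_cast at h1
  have h3 := (div_left_inj' (mul_ne_zero h2 h2)).1 h1
  unfold kc
  rw [pow_two]
  exact_mod_cast h3

theorem kc_equiv {G H : Type} [Group G] [Finite G] [Group H] [Finite H] (e : G ≃* H) :
    kc G = kc H := by
  have h1 : commProb G = commProb H := by
    unfold commProb
    rw [Nat.card_congr e.toEquiv]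
    congr 2
    refine Nat.card_congr ((e.toEquiv.prodCongr e.toEquiv).subtypeEquiv fun x => ?_)
    change x.1 * x.2 = x.2 * x.1 ↔ e x.1 * e x.2 = e x.2 * e x.1
    rw [← map_mul, ← map_mul, e.injective.eq_iff]
  rw [commProb_def', commProb_def', Nat.card_congr e.toEquiv] at h1
  have h2 : (Nat.card H : ℚ) ≠ 0 := by exact_mod_cast Nat.card_pos.ne'
  have h3 := (div_left_inj' h2).1 h1
  unfold kc
  exact_mod_cast h3

theorem bS_eq {p : ℕ} [Fact p.Prime] {G : Type} [Group G] [Finite G] (P : Sylow p G) :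
    bS p G = kc (P : Subgroup G) :=
  kc_equiv (Sylow.equiv _ P)

theorem bS_prod {p : ℕ} [Fact p.Prime] (G : Type) [Group G] [Finite G] :
    bS p (G × G) = bS p G ^ 2 := by
  obtain ⟨P⟩ := Sylow.nonempty (p := p) (G := G)
  have h1 : IsPGroup p ((P : Subgroup G).prod (P : Subgroup G)) := by
    have h2 : IsPGroup p (P × P) := by
      obtain ⟨a, ha⟩ := IsPGroup.iff_card.1 P.isPGroup'
      refine IsPGroup.iff_card.2 ⟨a + a, ?_⟩
      rw [Nat.card_prod, pow_add]
      exact congrArg₂ (· * ·) ha ha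
    exact h2.of_equiv (Subgroup.prodEquiv (P : Subgroup G) (P : Subgroup G)).symm
  have h3 : ¬ p ∣ ((P : Subgroup G).prod (P : Subgroup G)).index := by
    rw [Subgroup.index_prod]
    intro h
    rcases (Fact.out : p.Prime).dvd_mul.1 h with h | h
    · exact P.not_dvd_index h
    · exact P.not_dvd_index h
  rw [bS_eq (h1.toSylow h3), bS_eq P, ← kc_prod]
  exact kc_equiv (Subgroup.prodEquiv (P : Subgroup G) (P : Subgroup G))

theorem prodS_prod (G : Type) [Group G] [Finite G] : prodS (G × G) = prodS G ^ 2 := by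
  unfold prodS
  rw [Nat.card_prod, Nat.primeFactors_mul Nat.card_pos.ne' Nat.card_pos.ne', Finset.union_self,
    ← Finset.prod_pow]
  refine Finset.prod_congr rfl fun p hp => ?_
  have : Fact p.Prime := ⟨Nat.prime_of_mem_primeFactors hp⟩
  exact bS_prod G

/-- A finite group. -/
structure Gp where
  G : Type
  [grp : Group G]
  [fin : Finite G]

attribute [instance] Gp.grp Gp.fin

/-- The direct square. -/
def Gp.sq (x : Gp) : Gp := ⟨x.G × x.G⟩

theorem powers (P : Gp → Prop) (hP : ∀ x, P x → P x.sq) (x : Gp) (hx : P x) (n : ℕ) :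
    ∃ y : Gp, P y ∧ Nat.card y.G = Nat.card x.G ^ 2 ^ n ∧ prodS y.G = prodS x.G ^ 2 ^ n ∧
      kc y.G = kc x.G ^ 2 ^ n := by
  induction n with
  | zero => exact ⟨x, hx, by simp, by simp, by simp⟩
  | succ n ih =>
    obtain ⟨y, h1, h2, h3, h4⟩ := ih
    refine ⟨y.sq, hP y h1, ?_, ?_, ?_⟩
    · change Nat.card (y.G × y.G) = _
      rw [Nat.card_prod, h2, ← pow_two, pow_succ 2 n, pow_mul]
    · change prodS (y.G × y.G) = _
      rw [prodS_prod, h3, pow_succ 2 n, pow_mul]
    · change kc (y.G × y.G) = _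
      rw [kc_prod, h4, pow_succ 2 n, pow_mul]

/-- **The inequality up to factors `|G|^o(1)` implies the inequality.** -/
theorem result (P : Gp → Prop) (hP : ∀ x, P x → P x.sq) :
    (∀ x, P x → kc x.G ≤ prodS x.G) ↔ ∀ ε : ℝ, 0 < ε → ∃ C : ℝ, ∀ x, P x →
      (kc x.G : ℝ) ≤ C * (Nat.card x.G : ℝ) ^ ε * prodS x.G := by
  constructor
  · intro h ε hε
    refine ⟨1, fun x hx => ?_⟩
    have h2 : (1 : ℝ) ≤ (Nat.card x.G : ℝ) ^ ε :=
      Real.one_le_rpow (by exact_mod_cast Nat.card_pos) hε.le
    have h3 : (kc x.G : ℝ) ≤ prodS x.G := by exact_mod_cast h x hx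
    have h4 : (0 : ℝ) ≤ prodS x.G := Nat.cast_nonneg _
    nlinarith
  · intro h x hx
    refine amplify (g := Nat.card x.G) Nat.card_pos fun ε hε => ?_
    obtain ⟨C, hC⟩ := h ε hε
    refine ⟨C, fun n => ?_⟩
    obtain ⟨y, h1, h2, h3, h4⟩ := powers P hP x hx n
    rw [← h2, ← h3, ← h4]
    exact hC y h1

end Pool.Agent.Results.MP_6bd831_al.SubpolynomialError
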